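import Mathlib

/-!
The largest discrepancy between the two ways of sampling a matching pair is less than one.

With `x i = P(X = i) = p i ^ 2 / f₂` and `y i = P(Y = i)` we show `∑ y i ≤ 1` and
`y i ≥ (e⁻²/2) x i` for all `i`; hence `D(p) ≤ 1 - e⁻²/2`. The lower bound uses
`(k+1)! ≥ ∫_0^T t^(k+1) e^(-t) dt` and `1 + u ≥ exp (u - u²/2)` with `T = f₂^(-1/2)`.
-/

namespace Pool.Agent.Results.MP_c9cfcf_pr.LessThanOne

open scoped ENNReal BigOperators
open MeasureTheory

noncomputable section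

/-- `P(X = i) = p_i² / ∑_j p_j²` (method 1). -/
def lawX {C : Type} (p : PMF C) (i : C) : ℝ≥0∞ := p i ^ 2 / ∑' j, p j ^ 2

/-- `P(Y = i) = p_i² ∑_{k ≥ 0} (k+1)! ∑_{J ⊆ C \ {i}, |J| = k} ∏_{j ∈ J} p_j` (method 2). -/
def lawY {C : Type} (p : PMF C) (i : C) : ℝ≥0∞ :=
  p i ^ 2 * ∑' k : ℕ, ((k + 1).factorial : ℝ≥0∞) *
    ∑' J : {J : Finset C // i ∉ J ∧ J.card = k}, ∏ j ∈ (J : Finset C), p j

/-- The discrepancy `D(p) = (1/2) ∑_i |P(X = i) - P(Y = i)|`. -/
def discrepancy {C : Type} (p : PMF C) : ℝ :=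
  (1 / 2) * ∑' i, |(lawX p i).toReal - (lawY p i).toReal|

/-! ### The total mass of `Y` is at most one -/

section mass

variable {C : Type} [DecidableEq C] (q : C → ℝ≥0∞)

/-- weight of a finite set of colors -/
def w (K : Finset C) : ℝ≥0∞ := (K.card.factorial : ℝ≥0∞) * ∏ j ∈ K, q j

lemma w_insert {i : C} {J : Finset C} (h : i ∉ J) :
    w q (insert i J) = q i * (((J.card + 1).factorial : ℝ≥0∞) * ∏ j ∈ J, q j) := by
  rw [w, Finset.card_insert_of_notMem h, Finset.prod_insert h]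
  ring

lemma sum_insert (A : Finset C) (i : C) (hi : i ∈ A) (φ : Finset C → ℝ≥0∞) :
    ∑ J ∈ A.powerset.filter (fun J => i ∉ J), φ (insert i J) =
      ∑ K ∈ A.powerset.filter (fun K => i ∈ K), φ K := by
  apply Finset.sum_bij (fun J _ => insert i J)
  · intro J hJ
    rw [Finset.mem_filter, Finset.mem_powerset] at hJ ⊢
    exact ⟨Finset.insert_subset hi hJ.1, Finset.mem_insert_self _ _⟩
  · intro J hJ J' hJ' h
    rw [Finset.mem_filter] at hJ hJ'
    rw [← Finset.erase_insert hJ.2, ← Finset.erase_insert hJ'.2, h]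
  · intro K hK
    rw [Finset.mem_filter, Finset.mem_powerset] at hK
    refine ⟨K.erase i, ?_, Finset.insert_erase hK.2⟩
    rw [Finset.mem_filter, Finset.mem_powerset]
    exact ⟨(Finset.erase_subset _ _).trans hK.1, Finset.notMem_erase _ _⟩
  · intro J _
    rfl

lemma total_le (hq : ∀ i, q i ≠ ∞) (A : Finset C) (hA : ∑ i ∈ A, q i ≤ 1) :
    ∑ i ∈ A, q i ^ 2 * ∑ J ∈ A.powerset.filter (fun J => i ∉ J),
      (((J.card + 1).factorial : ℝ≥0∞) * ∏ j ∈ J, q j) ≤ 1 := by
  have h1 : ∀ i ∈ A, q i ^ 2 * ∑ J ∈ A.powerset.filter (fun J => i ∉ J),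
      (((J.card + 1).factorial : ℝ≥0∞) * ∏ j ∈ J, q j) =
      ∑ K ∈ A.powerset.filter (fun K => i ∈ K), q i * w q K := by
    intro i hi
    rw [← sum_insert A i hi (fun K => q i * w q K), Finset.mul_sum]
    apply Finset.sum_congr rfl
    intro J hJ
    rw [Finset.mem_filter] at hJ
    rw [w_insert q hJ.2]
    ring
  have h2 : ∑ i ∈ A, ∑ K ∈ A.powerset.filter (fun K => i ∉ K), q i * w q K =
      ∑ K ∈ A.powerset.filter (fun K => K.Nonempty), w q K := by
    have h3 : ∀ i ∈ A, ∑ K ∈ A.powerset.filter (fun K => i ∉ K), q i * w q K =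
        ∑ K ∈ A.powerset.filter (fun K => i ∈ K),
          (((K.card - 1).factorial : ℝ≥0∞) * ∏ j ∈ K, q j) := by
      intro i hi
      rw [← sum_insert A i hi (fun K => (((K.card - 1).factorial : ℝ≥0∞) * ∏ j ∈ K, q j))]
      apply Finset.sum_congr rfl
      intro J hJ
      rw [Finset.mem_filter] at hJ
      rw [Finset.card_insert_of_notMem hJ.2, Finset.prod_insert hJ.2, w, Nat.add_sub_cancel]
      ring
    rw [Finset.sum_congr rfl h3]
    simp_rw [Finset.sum_filter]
    rw [Finset.sum_comm]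
    apply Finset.sum_congr rfl
    intro K hK
    rw [Finset.mem_powerset] at hK
    rw [← Finset.sum_filter]
    have h4 : A.filter (fun i => i ∈ K) = K := by
      ext i
      rw [Finset.mem_filter]
      exact ⟨fun h => h.2, fun h => ⟨hK h, h⟩⟩
    rw [h4, Finset.sum_const, nsmul_eq_mul]
    by_cases hne : K.Nonempty
    · rw [if_pos hne, w, ← mul_assoc]
      congr 1
      have hc : 0 < K.card := Finset.card_pos.2 hne
      rw [← Nat.mul_factorial_pred hc.ne']
      push_cast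
      rfl
    · rw [if_neg hne]
      rw [Finset.not_nonempty_iff_eq_empty] at hne
      subst hne
      simp
  rw [Finset.sum_congr rfl h1]
  have h5 : ∑ i ∈ A, ∑ K ∈ A.powerset.filter (fun K => i ∈ K), q i * w q K +
      ∑ i ∈ A, ∑ K ∈ A.powerset.filter (fun K => i ∉ K), q i * w q K =
      (∑ i ∈ A, q i) * ∑ K ∈ A.powerset, w q K := by
    rw [← Finset.sum_add_distrib, Finset.sum_mul]
    apply Finset.sum_congr rfl
    intro i _
    rw [Finset.sum_filter_add_sum_filter_not, Finset.mul_sum]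
  have h6 : ∑ K ∈ A.powerset, w q K =
      1 + ∑ K ∈ A.powerset.filter (fun K => K.Nonempty), w q K := by
    rw [← Finset.sum_filter_add_sum_filter_not A.powerset (fun K => K.Nonempty), add_comm]
    congr 1
    have h7 : A.powerset.filter (fun K => ¬ K.Nonempty) = {∅} := by
      ext K
      rw [Finset.mem_filter, Finset.mem_singleton, Finset.not_nonempty_iff_eq_empty,
        Finset.mem_powerset]
      exact ⟨fun h => h.2, fun h => ⟨by rw [h]; exact Finset.empty_subset _, h⟩⟩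
    rw [h7, Finset.sum_singleton, w]
    simp
  rw [h2] at h5
  set b := ∑ K ∈ A.powerset.filter (fun K => K.Nonempty), w q K with hb
  have hbt : b ≠ ∞ := by
    rw [hb]
    apply ENNReal.sum_ne_top.2
    intro K _
    rw [w]
    apply ENNReal.mul_ne_top (ENNReal.natCast_ne_top _)
    exact ENNReal.prod_ne_top fun j _ => hq j
  have h8 : (∑ i ∈ A, q i) * ∑ K ∈ A.powerset, w q K ≤ 1 + b := by
    rw [h6]
    calc (∑ i ∈ A, q i) * (1 + b) ≤ 1 * (1 + b) := by gcongr
      _ = 1 + b := one_mul _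
  rw [← h5] at h8
  exact (ENNReal.add_le_add_iff_right hbt).1 h8

end mass

lemma lawY_eq {C : Type} [DecidableEq C] (p : PMF C) (i : C) :
    lawY p i = ∑' J : Finset C, if i ∉ J then
      p i ^ 2 * (((J.card + 1).factorial : ℝ≥0∞) * ∏ j ∈ J, p j) else 0 := by
  have h1 : ∀ k : ℕ, ((k + 1).factorial : ℝ≥0∞) *
      ∑' J : {J : Finset C // i ∉ J ∧ J.card = k}, ∏ j ∈ (J : Finset C), p j =
      ∑' J : Finset C, if i ∉ J ∧ J.card = k then
        (((k + 1).factorial : ℝ≥0∞) * ∏ j ∈ J, p j) else 0 := by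
    intro k
    rw [← ENNReal.tsum_mul_left]
    have h2 := tsum_subtype {J : Finset C | i ∉ J ∧ J.card = k}
      (fun J => (((k + 1).factorial : ℝ≥0∞) * ∏ j ∈ J, p j))
    refine Eq.trans ?_ (h2.trans ?_)
    · rfl
    · apply tsum_congr
      intro J
      by_cases h : i ∉ J ∧ J.card = k
      · rw [if_pos h, Set.indicator_of_mem]
        exact h
      · rw [if_neg h, Set.indicator_of_notMem]
        exact h
  rw [lawY]
  simp_rw [h1]
  rw [ENNReal.tsum_comm, ← ENNReal.tsum_mul_left]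
  apply tsum_congr
  intro J
  by_cases h : i ∉ J
  · rw [if_pos h, tsum_eq_single J.card]
    · rw [if_pos ⟨h, rfl⟩]
    · intro k hk
      rw [if_neg]
      exact fun hh => hk hh.2.symm
  · rw [if_neg h]
    have h3 : ∀ k : ℕ, (if i ∉ J ∧ J.card = k then
        (((k + 1).factorial : ℝ≥0∞) * ∏ j ∈ J, p j) else 0) = 0 := by
      intro k
      rw [if_neg]
      exact fun hh => h hh.1
    simp_rw [h3]
    simp

lemma tsum_lawY_le {C : Type} (p : PMF C) : ∑' i, lawY p i ≤ 1 := by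
  classical
  simp_rw [lawY_eq]
  rw [← ENNReal.tsum_prod, ENNReal.tsum_eq_iSup_sum]
  apply iSup_le
  intro s
  set A : Finset C := s.image Prod.fst ∪ s.biUnion (fun x => x.2) with hA
  have h1 : s ⊆ A ×ˢ A.powerset := by
    intro x hx
    rw [Finset.mem_product, Finset.mem_powerset, hA]
    refine ⟨Finset.mem_union_left _ (Finset.mem_image_of_mem _ hx), ?_⟩
    intro j hj
    exact Finset.mem_union_right _ (Finset.mem_biUnion.2 ⟨x, hx, hj⟩)
  have h2 : ∑ i ∈ A, p i ≤ 1 := by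
    rw [← p.tsum_coe]
    exact ENNReal.sum_le_tsum A
  refine le_trans (Finset.sum_le_sum_of_subset h1) ?_
  rw [Finset.sum_product]
  refine le_trans (le_of_eq ?_) (total_le (fun i => p i) (fun i => p.apply_ne_top i) A h2)
  apply Finset.sum_congr rfl
  intro i _
  rw [Finset.mul_sum, Finset.sum_filter]

/-! ### The lower bound -/

lemma one_add_ge {u : ℝ} (hu : 0 ≤ u) : Real.exp (u - u ^ 2 / 2) ≤ 1 + u := by
  rw [← Real.le_log_iff_exp_le (by positivity)]
  have h := Real.le_log_one_add_of_nonneg hu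
  refine le_trans ?_ h
  rw [le_div_iff₀ (by positivity)]
  nlinarith [pow_nonneg hu 3]

lemma factorial_ge (n : ℕ) (T : ℝ) (hT : 0 ≤ T) :
    ∫ t in (0 : ℝ)..T, t ^ n * Real.exp (-t) ≤ n.factorial := by
  have hint : IntegrableOn (fun t : ℝ => Real.exp (-t) * t ^ (((n : ℝ) + 1) - 1)) (Set.Ioi 0) :=
    Real.GammaIntegral_convergent (by positivity)
  have hG : ∫ t in Set.Ioi (0 : ℝ), Real.exp (-t) * t ^ (((n : ℝ) + 1) - 1) = n.factorial := by
    rw [← Real.Gamma_eq_integral (by positivity), Real.Gamma_nat_eq_factorial]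
  rw [intervalIntegral.integral_of_le hT, ← hG]
  have h1 : ∫ t in Set.Ioc (0 : ℝ) T, t ^ n * Real.exp (-t) =
      ∫ t in Set.Ioc (0 : ℝ) T, Real.exp (-t) * t ^ (((n : ℝ) + 1) - 1) := by
    apply setIntegral_congr_fun measurableSet_Ioc
    intro t _
    simp only
    rw [add_sub_cancel_right, Real.rpow_natCast, mul_comm]
  rw [h1]
  apply setIntegral_mono_set hint
  · rw [Filter.EventuallyLE, ae_restrict_iff' measurableSet_Ioi]
    apply ae_of_all
    intro t ht
    have : (0 : ℝ) < t := ht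
    simp only [Pi.zero_apply]
    positivity
  · exact (Set.Ioc_subset_Ioi_self).eventuallyLE

lemma sum_ge {C : Type} [DecidableEq C] (r : C → ℝ) (hr : ∀ i, 0 ≤ r i) (B : Finset C)
    (T : ℝ) (hT : 0 < T) (hB : T * (1 - ∑ j ∈ B, r j) ≤ 3 / 2)
    (h2 : T ^ 2 * ∑ j ∈ B, r j ^ 2 ≤ 1) :
    Real.exp (-2) * (T ^ 2 / 2) ≤
      ∑ J ∈ B.powerset, (((J.card + 1).factorial : ℝ) * ∏ j ∈ J, r j) := by
  have hprod : ∀ t : ℝ, ∏ j ∈ B, (1 + r j * t) = ∑ J ∈ B.powerset, t ^ J.card * ∏ j ∈ J, r j := by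
    intro t
    have h3 : ∏ j ∈ B, (1 + r j * t) = ∏ j ∈ B, (r j * t + 1) :=
      Finset.prod_congr rfl fun j _ => add_comm _ _
    rw [h3, Finset.prod_add]
    apply Finset.sum_congr rfl
    intro J _
    rw [Finset.prod_const_one, mul_one, Finset.prod_mul_distrib, Finset.prod_const]
    ring
  have hI : ∫ t in (0 : ℝ)..T, (∏ j ∈ B, (1 + r j * t)) * (t * Real.exp (-t)) ≤
      ∑ J ∈ B.powerset, (((J.card + 1).factorial : ℝ) * ∏ j ∈ J, r j) := by
    have h4 : ∀ t : ℝ, (∏ j ∈ B, (1 + r j * t)) * (t * Real.exp (-t)) =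
        ∑ J ∈ B.powerset, (∏ j ∈ J, r j) * (t ^ (J.card + 1) * Real.exp (-t)) := by
      intro t
      rw [hprod, Finset.sum_mul]
      apply Finset.sum_congr rfl
      intro J _
      ring
    simp_rw [h4]
    rw [intervalIntegral.integral_finsetSum]
    · apply Finset.sum_le_sum
      intro J _
      rw [intervalIntegral.integral_const_mul, mul_comm]
      exact mul_le_mul_of_nonneg_right (factorial_ge _ T hT.le)
        (Finset.prod_nonneg fun j _ => hr j)
    · intro J _
      exact (by fun_prop : Continuous fun t : ℝ =>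
        (∏ j ∈ J, r j) * (t ^ (J.card + 1) * Real.exp (-t))).intervalIntegrable _ _
  refine le_trans ?_ hI
  have h5 : Real.exp (-2) * (T ^ 2 / 2) = ∫ t in (0 : ℝ)..T, Real.exp (-2) * t := by
    rw [intervalIntegral.integral_const_mul, integral_id]
    ring
  rw [h5]
  apply intervalIntegral.integral_mono_on hT.le
  · exact (by fun_prop : Continuous fun t : ℝ => Real.exp (-2) * t).intervalIntegrable _ _
  · exact (by fun_prop : Continuous fun t : ℝ =>
      (∏ j ∈ B, (1 + r j * t)) * (t * Real.exp (-t))).intervalIntegrable _ _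
  · intro t ht
    have ht0 := ht.1
    have htT := ht.2
    have h6 : Real.exp (∑ j ∈ B, (r j * t - (r j * t) ^ 2 / 2)) ≤ ∏ j ∈ B, (1 + r j * t) := by
      rw [Real.exp_sum]
      apply Finset.prod_le_prod
      · intro j _; exact (Real.exp_pos _).le
      · intro j _
        exact one_add_ge (mul_nonneg (hr j) ht0)
    have h7 : -2 ≤ ∑ j ∈ B, (r j * t - (r j * t) ^ 2 / 2) + -t := by
      have h8 : ∑ j ∈ B, (r j * t - (r j * t) ^ 2 / 2) =
          t * ∑ j ∈ B, r j - t ^ 2 * (∑ j ∈ B, r j ^ 2) / 2 := by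
        rw [Finset.sum_sub_distrib, ← Finset.sum_mul, ← Finset.sum_div]
        have h9 : ∑ j ∈ B, (r j * t) ^ 2 = t ^ 2 * ∑ j ∈ B, r j ^ 2 := by
          rw [Finset.mul_sum]
          apply Finset.sum_congr rfl
          intro j _
          ring
        rw [h9]
        ring
      rw [h8]
      have hS2 : 0 ≤ ∑ j ∈ B, r j ^ 2 := Finset.sum_nonneg fun j _ => sq_nonneg _
      have h10 : t ^ 2 * (∑ j ∈ B, r j ^ 2) ≤ 1 := by
        refine le_trans ?_ h2
        apply mul_le_mul_of_nonneg_right _ hS2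
        exact pow_le_pow_left₀ ht0 htT 2
      have h11 : t * (1 - ∑ j ∈ B, r j) ≤ 3 / 2 := by
        by_cases hs : 0 ≤ 1 - ∑ j ∈ B, r j
        · exact le_trans (mul_le_mul_of_nonneg_right htT hs) hB
        · push Not at hs
          nlinarith
      nlinarith
    calc Real.exp (-2) * t ≤ Real.exp (∑ j ∈ B, (r j * t - (r j * t) ^ 2 / 2) + -t) * t := by
          apply mul_le_mul_of_nonneg_right _ ht0
          exact Real.exp_le_exp.2 h7
      _ = Real.exp (∑ j ∈ B, (r j * t - (r j * t) ^ 2 / 2)) * (t * Real.exp (-t)) := by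
          rw [Real.exp_add]; ring
      _ ≤ _ := by
          apply mul_le_mul_of_nonneg_right h6
          positivity

lemma tsum_sq_le_one {C : Type} (p : PMF C) : ∑' j, p j ^ 2 ≤ 1 := by
  rw [← p.tsum_coe]
  apply ENNReal.tsum_le_tsum
  intro j
  calc p j ^ 2 = p j * p j := sq _
    _ ≤ p j * 1 := by gcongr; exact p.coe_le_one j
    _ = p j := mul_one _

lemma tsum_sq_ne_top {C : Type} (p : PMF C) : ∑' j, p j ^ 2 ≠ ∞ :=
  ne_top_of_le_ne_top ENNReal.one_ne_top (tsum_sq_le_one p)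

lemma tsum_sq_ne_zero {C : Type} (p : PMF C) : ∑' j, p j ^ 2 ≠ 0 := by
  intro h
  rw [ENNReal.tsum_eq_zero] at h
  have h1 : ∑' j, p j = 0 := by
    rw [ENNReal.tsum_eq_zero]
    intro j
    exact pow_eq_zero_iff (two_ne_zero) |>.1 (h j)
  rw [p.tsum_coe] at h1
  exact one_ne_zero h1

lemma lawY_ge {C : Type} (p : PMF C) (i : C) :
    ENNReal.ofReal (Real.exp (-2) / 2) * lawX p i ≤ lawY p i := by
  classical
  set f2 : ℝ≥0∞ := ∑' j, p j ^ 2 with hf2
  have hf2top : f2 ≠ ∞ := tsum_sq_ne_top p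
  have hf20 : f2 ≠ 0 := tsum_sq_ne_zero p
  set a : ℝ := f2.toReal with ha
  have ha0 : 0 < a := ENNReal.toReal_pos hf20 hf2top
  set T : ℝ := 1 / Real.sqrt a with hTdef
  have hsq : 0 < Real.sqrt a := Real.sqrt_pos.2 ha0
  have hT : 0 < T := by rw [hTdef]; positivity
  have hTa : T ^ 2 * a = 1 := by
    rw [hTdef, div_pow, one_pow, Real.sq_sqrt ha0.le]
    field_simp
  set r : C → ℝ := fun j => (p j).toReal with hr
  have hr0 : ∀ j, 0 ≤ r j := fun j => ENNReal.toReal_nonneg
  have hpr : ∀ j, p j = ENNReal.ofReal (r j) := fun j =>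
    (ENNReal.ofReal_toReal (p.apply_ne_top j)).symm
  have hsum : HasSum r 1 := by
    have h1 := ENNReal.hasSum_toReal (f := fun j => p j) (by rw [p.tsum_coe]; exact ENNReal.one_ne_top)
    have h2 : ∑' j, (p j).toReal = 1 := by
      rw [← ENNReal.tsum_toReal_eq (fun j => p.apply_ne_top j), p.tsum_coe, ENNReal.toReal_one]
    rw [h2] at h1
    exact h1
  have hev := hsum.eventually (lt_mem_nhds (show 1 - 1 / (2 * T) < 1 by
    have : 0 < 1 / (2 * T) := by positivity
    linarith))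
  obtain ⟨A, hA⟩ := (hev.and (Filter.eventually_ge_atTop {i})).exists
  have hiA : i ∈ A := hA.2 (Finset.mem_singleton_self i)
  set B := A.erase i with hB
  have hsplit : ∑ j ∈ B, r j + r i = ∑ j ∈ A, r j := Finset.sum_erase_add _ _ hiA
  have hS2 : ∀ s : Finset C, ∑ j ∈ s, r j ^ 2 ≤ a := by
    intro s
    have h1 : ∑ j ∈ s, p j ^ 2 ≤ f2 := ENNReal.sum_le_tsum s
    have h2 := ENNReal.toReal_mono hf2top h1
    rw [ENNReal.toReal_sum (fun j _ => ENNReal.pow_ne_top (p.apply_ne_top j))] at h2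
    simpa [ENNReal.toReal_pow] using h2
  have hri : T * r i ≤ 1 := by
    have h1 := hS2 {i}
    rw [Finset.sum_singleton] at h1
    have h2 : r i ≤ Real.sqrt a := Real.le_sqrt_of_sq_le h1
    rw [hTdef, one_div, inv_mul_le_iff₀ hsq, mul_one]
    exact h2
  have hB1 : T * (1 - ∑ j ∈ B, r j) ≤ 3 / 2 := by
    have h1 : 1 - ∑ j ∈ B, r j < 1 / (2 * T) + r i := by linarith [hA.1]
    have h2 : T * (1 - ∑ j ∈ B, r j) ≤ T * (1 / (2 * T) + r i) :=
      mul_le_mul_of_nonneg_left h1.le hT.le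
    have h3 : T * (1 / (2 * T) + r i) = 1 / 2 + T * r i := by
      field_simp
    linarith
  have hB2 : T ^ 2 * ∑ j ∈ B, r j ^ 2 ≤ 1 := by
    rw [← hTa]
    exact mul_le_mul_of_nonneg_left (hS2 B) (by positivity)
  have hmain := sum_ge r hr0 B T hT hB1 hB2
  have hE : ENNReal.ofReal (Real.exp (-2) * (T ^ 2 / 2)) ≤
      ∑ J ∈ B.powerset, (((J.card + 1).factorial : ℝ≥0∞) * ∏ j ∈ J, p j) := by
    refine le_trans (ENNReal.ofReal_le_ofReal hmain) (le_of_eq ?_)
    rw [ENNReal.ofReal_sum_of_nonneg]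
    · apply Finset.sum_congr rfl
      intro J _
      rw [ENNReal.ofReal_mul (by positivity), ENNReal.ofReal_natCast,
        ENNReal.ofReal_prod_of_nonneg (fun j _ => hr0 j)]
      congr 1
      exact Finset.prod_congr rfl fun j _ => (hpr j).symm
    · intro J _
      exact mul_nonneg (by positivity) (Finset.prod_nonneg fun j _ => hr0 j)
  have hY : p i ^ 2 * ∑ J ∈ B.powerset, (((J.card + 1).factorial : ℝ≥0∞) * ∏ j ∈ J, p j) ≤
      lawY p i := by
    rw [lawY_eq, Finset.mul_sum]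
    refine le_trans (le_of_eq ?_) (ENNReal.sum_le_tsum B.powerset)
    apply Finset.sum_congr rfl
    intro J hJ
    rw [Finset.mem_powerset] at hJ
    rw [if_pos]
    intro h
    exact absurd (hJ h) (Finset.notMem_erase i A)
  refine le_trans ?_ hY
  have hX : ENNReal.ofReal (Real.exp (-2) / 2) * lawX p i =
      p i ^ 2 * ENNReal.ofReal (Real.exp (-2) * (T ^ 2 / 2)) := by
    have h1 : Real.exp (-2) * (T ^ 2 / 2) = (Real.exp (-2) / 2) * a⁻¹ := by
      rw [eq_mul_inv_iff_mul_eq₀ ha0.ne']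
      calc Real.exp (-2) * (T ^ 2 / 2) * a = Real.exp (-2) / 2 * (T ^ 2 * a) := by ring
        _ = _ := by rw [hTa, mul_one]
    rw [h1, ENNReal.ofReal_mul (by positivity), ENNReal.ofReal_inv_of_pos ha0, ha,
      ENNReal.ofReal_toReal hf2top, lawX, ← hf2, ENNReal.div_eq_inv_mul]
    ring
  rw [hX]
  gcongr

lemma tsum_lawX {C : Type} (p : PMF C) : ∑' i, lawX p i = 1 := by
  simp_rw [lawX, div_eq_mul_inv]
  rw [ENNReal.tsum_mul_right]
  exact ENNReal.mul_inv_cancel (tsum_sq_ne_zero p) (tsum_sq_ne_top p)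

/-- **The largest discrepancy is less than one.** There is a constant `δ < 1` (in fact
`δ = 1 - e⁻²/2`) with `D(p) ≤ δ` for every probability distribution `p` on any set of colors (the
support of a `PMF` is always finite or countable). So the supremum `ℓ₀` of all `D(p)` is `< 1`. -/
theorem result : ∃ δ : ℝ, δ < 1 ∧ ∀ (C : Type) (p : PMF C), discrepancy p ≤ δ := by
  refine ⟨1 - Real.exp (-2) / 2, by linarith [Real.exp_pos (-2)], ?_⟩
  intro C p
  set κ : ℝ := Real.exp (-2) / 2 with hκ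
  have hκ0 : 0 < κ := by rw [hκ]; positivity
  have hκ1 : κ ≤ 1 := by
    have : Real.exp (-2) ≤ 1 := Real.exp_le_one_iff.2 (by norm_num)
    rw [hκ]; linarith
  set x : C → ℝ := fun i => (lawX p i).toReal with hx
  set y : C → ℝ := fun i => (lawY p i).toReal with hy
  have hXs : ∑' i, lawX p i ≠ ∞ := by rw [tsum_lawX]; exact ENNReal.one_ne_top
  have hYs : ∑' i, lawY p i ≠ ∞ := ne_top_of_le_ne_top ENNReal.one_ne_top (tsum_lawY_le p)
  have hxs : Summable x := ENNReal.summable_toReal hXs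
  have hys : Summable y := ENNReal.summable_toReal hYs
  have hx1 : ∑' i, x i = 1 := by
    have h := ENNReal.tsum_toReal_eq (f := fun i => lawX p i) (fun i => ENNReal.ne_top_of_tsum_ne_top hXs i)
    rw [tsum_lawX, ENNReal.toReal_one] at h
    exact h.symm
  have hy1 : ∑' i, y i ≤ 1 := by
    have h := ENNReal.tsum_toReal_eq (f := fun i => lawY p i) (fun i => ENNReal.ne_top_of_tsum_ne_top hYs i)
    rw [← h]
    have h2 := ENNReal.toReal_mono ENNReal.one_ne_top (tsum_lawY_le p)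
    simpa using h2
  have hle : ∀ i, κ * x i ≤ y i := by
    intro i
    have h1 := ENNReal.toReal_mono (ENNReal.ne_top_of_tsum_ne_top hYs i) (lawY_ge p i)
    rw [ENNReal.toReal_mul, ENNReal.toReal_ofReal hκ0.le] at h1
    exact h1
  have hx0 : ∀ i, 0 ≤ x i := fun i => ENNReal.toReal_nonneg
  have habs : ∀ i, |x i - y i| ≤ x i + y i - 2 * (κ * x i) := by
    intro i
    have h1 := hle i
    have h2 := hx0 i
    rw [abs_le]
    constructor
    · nlinarith
    · nlinarith
  have hs2 : Summable fun i => x i + y i - 2 * (κ * x i) :=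
    (hxs.add hys).sub ((hxs.mul_left κ).mul_left 2)
  have hs1 : Summable fun i => |x i - y i| := (hxs.sub hys).abs
  have h3 : ∑' i, |x i - y i| ≤ ∑' i, (x i + y i - 2 * (κ * x i)) :=
    hs1.tsum_le_tsum habs hs2
  have h4 : ∑' i, (x i + y i - 2 * (κ * x i)) = ∑' i, x i + ∑' i, y i - 2 * (κ * ∑' i, x i) := by
    rw [(hxs.add hys).tsum_sub ((hxs.mul_left κ).mul_left 2), hxs.tsum_add hys, tsum_mul_left,
      tsum_mul_left]
  rw [h4, hx1] at h3
  show (1 / 2) * ∑' i, |x i - y i| ≤ 1 - κ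
  linarith

end

end Pool.Agent.Results.MP_c9cfcf_pr.LessThanOne
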